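import Pool.Agent.Helper87.GE.Defs
import Pool.Agent.Helper87.GP.FamLow

/-!
# GE, block E8: law of large numbers on the tree
-/

set_option autoImplicit false
open MeasureTheory Set Filter Topology
open Pool.Agent.Helper78.KD
open Pool.Agent.Helper18.KD (par idx pt par_eq par_lt idx_lt idx_child pt_mem vol_idx sum_level Npos J_le t_mono)
open Pool.Agent.Helper87.GP (C0 osc_cell incr_nonneg contOn_u contOn_S lip_cont S_diff S_block)
open Pool.Agent.GE

namespace Pool.Agent.Helper24.GE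

variable {T : Tr} {u v : ℕ → ℝ → ℝ} {a b β₁ β₂ : ℝ} {B : ℕ → ℕ}

lemma mem_Icc_cell (hmem : ∀ k i, i ≤ T.N k → T.t k i ∈ Icc a b) {k i : ℕ} (hi : i < T.N k) {x : ℝ} (hx : x ∈ T.cell k i) :
    x ∈ Icc a b :=
  ⟨(hmem k i hi.le).1.trans hx.1, hx.2.trans (hmem k (i + 1) hi).2⟩

lemma osc (hF : Fam u v a b β₁ β₂) {φ : ℝ → ℝ} {K : ℝ} (hK : 0 ≤ K) (hlip : ∀ s t, |φ s - φ t| ≤ K * |s - t|)
    (hT : TrE T u a b B) {k i : ℕ} (hi : i < T.N k) {x : ℝ} (hx : x ∈ T.cell k i) :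
    |S φ u (nn B k) (T.t k i) - S φ u (nn B k) x| ≤ C0 K β₁ := by
  have h1 := hT.mem k i hi.le
  have h2 := hT.mem k (i + 1) hi
  have h3 : x ∈ Icc a b := ⟨h1.1.trans hx.1, hx.2.trans h2.2⟩
  refine osc_cell hF hK hlip (nn B k) h1 h3 hx.1 ?_
  have h4 := incr_nonneg hF (nn B k) h3 h2 hx.2
  linarith [(hT.inc k i hi).2]

lemma ch_sub {k i j : ℕ} (hi : i < T.N k) (hj : j ∈ T.ch k i) : j < T.N (k + 1) ∧ T.cell (k + 1) j ⊆ T.cell k i := by
  unfold Tr.ch at hj
  rw [Finset.mem_Ico] at hj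
  have hjN : j < T.N (k + 1) := lt_of_lt_of_le hj.2 (J_le T k hi)
  refine ⟨hjN, fun x hx => ?_⟩
  have h3 := t_mono T (k + 1) hj.1 hjN.le
  have h4 := t_mono T (k + 1) (show j + 1 ≤ T.J k (i + 1) by omega) (J_le T k hi)
  rw [T.ref k i hi.le] at h3
  rw [T.ref k (i + 1) hi] at h4
  exact ⟨h3.trans hx.1, hx.2.trans h4⟩

lemma ii (hmem : ∀ k i, i ≤ T.N k → T.t k i ∈ Icc a b) {f : ℝ → ℝ} (hf : ContinuousOn f (Icc a b)) {k i : ℕ} (hi : i < T.N k) :
    IntervalIntegrable f volume (T.t k i) (T.t k (i + 1)) :=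
  ContinuousOn.intervalIntegrable (hf.mono (uIcc_subset_Icc (hmem k i hi.le) (hmem k (i + 1) hi)))

lemma ic_pos (hmem : ∀ k i, i ≤ T.N k → T.t k i ∈ Icc a b) {f : ℝ → ℝ} (hf : ContinuousOn f (Icc a b))
    (hp : ∀ x ∈ Icc a b, 0 < f x) {k i : ℕ} (hi : i < T.N k) : 0 < ic T k i f := by
  unfold ic
  refine intervalIntegral.intervalIntegral_pos_of_pos_on (ii hmem hf hi) (fun x hx => ?_) (T.lt k i hi)
  exact hp x (mem_Icc_cell hmem hi ⟨hx.1.le, hx.2.le⟩)

lemma ic_sum (hmem : ∀ k i, i ≤ T.N k → T.t k i ∈ Icc a b) {f : ℝ → ℝ} (hf : ContinuousOn f (Icc a b)) {k i : ℕ}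
    (hi : i < T.N k) : ∑ j ∈ T.ch k i, ic T (k + 1) j f = ic T k i f := by
  have h := intervalIntegral.sum_integral_adjacent_intervals_Ico (f := f) (μ := volume) (a := T.t (k + 1)) (T.Jlt k i hi).le
    fun j hj => ii hmem hf (lt_of_lt_of_le hj.2 (J_le T k hi))
  unfold Tr.ch ic
  rw [h, T.ref k i hi.le, T.ref k (i + 1) hi]

section em

variable {tf : ℕ → ℕ → ℝ → ℝ}

lemma em_succ {k i j : ℕ} (hi : i < T.N k) (hj : j ∈ T.ch k i) :
    em T tf (k + 1) j = em T tf k i * (ic T (k + 1) j (tf k i) / ic T k i (tf k i)) := by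
  simp only [Pool.Agent.GE.em]
  rw [par_eq T k hi hj]

lemma em_sum (hmem : ∀ k i, i ≤ T.N k → T.t k i ∈ Icc a b) (hc : ∀ k i, ContinuousOn (tf k i) (Icc a b))
    (hpos : ∀ k i, ∀ x ∈ Icc a b, 0 < tf k i x) (k i : ℕ) (hi : i < T.N k) :
    ∑ j ∈ T.ch k i, em T tf (k + 1) j = em T tf k i := by
  rw [Finset.sum_congr rfl fun j hj => em_succ hi hj, ← Finset.mul_sum, ← Finset.sum_div, ic_sum hmem (hc k i) hi,
    div_self (ic_pos hmem (hc k i) (hpos k i) hi).ne', mul_one]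

lemma em_pos (hmem : ∀ k i, i ≤ T.N k → T.t k i ∈ Icc a b) (hc : ∀ k i, ContinuousOn (tf k i) (Icc a b))
    (hpos : ∀ k i, ∀ x ∈ Icc a b, 0 < tf k i x) : ∀ k i, i < T.N k → 0 < em T tf k i := by
  intro k
  induction k with
  | zero => intro i _; simp [Pool.Agent.GE.em]
  | succ k ih =>
    intro j hj
    simp only [Pool.Agent.GE.em]
    have h1 := ih (par T k j) (par_lt T k j)
    have h2 := ic_pos hmem (hc k (par T k j)) (hpos k (par T k j)) (par_lt T k j)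
    have h3 := ic_pos hmem (hc k (par T k j)) (hpos k (par T k j)) hj
    positivity

end em

/-- sums of increments of `F` along the good cells -/
noncomputable def Mh (T : Tr) (st : ℕ → ℕ → Prop) (F : ℕ → ℕ → ℝ) : ℕ → ℕ → ℝ
  | 0, _ => 0
  | k + 1, j => Mh T st F k (par T k j) + (open Classical in if st k (par T k j) then F (k + 1) j - F k (par T k j) else 0)

open Classical in
lemma Mh_succ {st : ℕ → ℕ → Prop} {F : ℕ → ℕ → ℝ} {k i j : ℕ} (hi : i < T.N k) (hj : j ∈ T.ch k i) :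
    Mh T st F (k + 1) j = Mh T st F k i + (if st k i then F (k + 1) j - F k i else 0) := by
  simp only [Mh]
  rw [par_eq T k hi hj]

lemma exp_le_quad {y : ℝ} (hy : |y| ≤ 1) : Real.exp y ≤ 1 + y + y ^ 2 := by
  have := Real.abs_exp_sub_one_sub_id_le hy
  linarith [(abs_le.1 this).2]

/-- the mean of the increments on a good cell -/
lemma mean_incr (hF : Fam u v a b β₁ β₂) {φ : ℝ → ℝ} {K : ℝ} (hK : 0 ≤ K) (hlip : ∀ s t, |φ s - φ t| ≤ K * |s - t|)
    (hb : ∀ t, |φ t| ≤ 1) {J L : ℕ → ℕ} (hB : ∀ k, B k = J k + L k) (hT : TrE T u a b B) {f : ℝ → ℝ}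
    (hc : ContinuousOn f (Icc a b)) (hpos : ∀ x ∈ Icc a b, 0 < f x) {d : ℝ} {k i : ℕ} (hi : i < T.N k)
    (hmean : ∀ l < L k, |ic T k i (fun x => φ (u (nn B k + J k + l) x) * f x)| ≤ d * ic T k i f) :
    ∑ j ∈ T.ch k i, ic T (k + 1) j f * (S φ u (nn B (k + 1)) (T.t (k + 1) j) - S φ u (nn B k) (T.t k i)) ≤
      (|d| * L k + J k + 2 * C0 K β₁) * ic T k i f := by
  have hφ := lip_cont hK hlip
  set G : ℝ → ℝ := fun x => S φ u (nn B (k + 1)) x - S φ u (nn B k) x with hG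
  have hGc : ContinuousOn G (Icc a b) := (contOn_S hF hφ _).sub (contOn_S hF hφ _)
  have hic := ic_pos hT.mem hc hpos hi
  have hfG : ContinuousOn (fun x => f x * (G x + 2 * C0 K β₁)) (Icc a b) := hc.mul (hGc.add continuousOn_const)
  have h1 : ∀ j ∈ T.ch k i, ic T (k + 1) j f * (S φ u (nn B (k + 1)) (T.t (k + 1) j) - S φ u (nn B k) (T.t k i)) ≤
      ic T (k + 1) j (fun x => f x * (G x + 2 * C0 K β₁)) := by
    intro j hj
    obtain ⟨hjN, hsub⟩ := ch_sub hi hj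
    unfold ic
    rw [← intervalIntegral.integral_mul_const]
    refine intervalIntegral.integral_mono_on (T.lt (k + 1) j hjN).le ((ii hT.mem hc hjN).mul_const _) (ii hT.mem hfG hjN)
      fun x hx => ?_
    have h2 := osc hF hK hlip hT hjN (x := x) hx
    have h3 := osc hF hK hlip hT hi (x := x) (hsub hx)
    have h4 := hpos x (mem_Icc_cell hT.mem hjN hx)
    refine mul_le_mul_of_nonneg_left ?_ h4.le
    rw [hG]
    have h5 := (abs_le.1 h2).2
    have h6 := (abs_le.1 h3).1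
    simp only
    linarith
  refine (Finset.sum_le_sum h1).trans ?_
  rw [ic_sum hT.mem hfG hi]
  -- the integral over the parent
  have hterm : ∀ n, ContinuousOn (fun x => φ (u n x) * f x) (Icc a b) := fun n =>
    (hφ.comp_continuousOn (contOn_u hF n)).mul hc
  have hterm' : ∀ n, IntervalIntegrable (fun x => φ (u n x) * f x) volume (T.t k i) (T.t k (i + 1)) := fun n =>
    ii hT.mem (hterm n) hi
  have e1 : ∀ x, f x * (G x + 2 * C0 K β₁) = (∑ j ∈ Finset.range (J k), φ (u (nn B k + j) x) * f x +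
      ∑ j ∈ Finset.range (L k), φ (u (nn B k + J k + j) x) * f x) + 2 * C0 K β₁ * f x := by
    intro x
    have : G x = ∑ j ∈ Finset.range (J k), φ (u (nn B k + j) x) + ∑ j ∈ Finset.range (L k), φ (u (nn B k + J k + j) x) := by
      rw [hG]
      simp only [Pool.Agent.GE.nn]
      rw [hB k]
      exact S_block φ u (nn B k) (J k) (L k) x
    rw [this, ← Finset.sum_mul, ← Finset.sum_mul]
    ring
  have hs1 : IntervalIntegrable (fun x => ∑ j ∈ Finset.range (J k), φ (u (nn B k + j) x) * f x) volume (T.t k i) (T.t k (i + 1)) :=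
    ii hT.mem (continuousOn_finsetSum _ fun n _ => hterm _) hi
  have hs2 : IntervalIntegrable (fun x => ∑ j ∈ Finset.range (L k), φ (u (nn B k + J k + j) x) * f x) volume (T.t k i)
      (T.t k (i + 1)) := ii hT.mem (continuousOn_finsetSum _ fun n _ => hterm _) hi
  have e2 : ic T k i (fun x => f x * (G x + 2 * C0 K β₁)) = (∑ j ∈ Finset.range (J k), ic T k i (fun x => φ (u (nn B k + j) x) * f x) +
      ∑ j ∈ Finset.range (L k), ic T k i (fun x => φ (u (nn B k + J k + j) x) * f x)) + 2 * C0 K β₁ * ic T k i f := by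
    unfold ic
    simp_rw [e1]
    rw [intervalIntegral.integral_add, intervalIntegral.integral_add, intervalIntegral.integral_finsetSum,
      intervalIntegral.integral_finsetSum, intervalIntegral.integral_const_mul]
    · exact fun n _ => hterm' _
    · exact fun n _ => hterm' _
    · exact hs1
    · exact hs2
    · exact hs1.add hs2
    · exact (ii hT.mem hc hi).const_mul _
  rw [e2]
  have h7 : ∑ j ∈ Finset.range (J k), ic T k i (fun x => φ (u (nn B k + j) x) * f x) ≤ J k * ic T k i f := by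
    have : ∀ j ∈ Finset.range (J k), ic T k i (fun x => φ (u (nn B k + j) x) * f x) ≤ ic T k i f := by
      intro j _
      unfold ic
      refine intervalIntegral.integral_mono_on (T.lt k i hi).le (hterm' _) (ii hT.mem hc hi) fun x hx => ?_
      have h4 := hpos x (mem_Icc_cell hT.mem hi hx)
      have h5 := (abs_le.1 (hb (u (nn B k + j) x))).2
      nlinarith
    refine (Finset.sum_le_sum this).trans ?_
    simp
  have h8 : ∑ j ∈ Finset.range (L k), ic T k i (fun x => φ (u (nn B k + J k + j) x) * f x) ≤ |d| * L k * ic T k i f := by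
    have : ∀ j ∈ Finset.range (L k), ic T k i (fun x => φ (u (nn B k + J k + j) x) * f x) ≤ |d| * ic T k i f := by
      intro j hj
      refine (le_abs_self _).trans ((hmean j (Finset.mem_range.1 hj)).trans ?_)
      exact mul_le_mul_of_nonneg_right (le_abs_self d) hic.le
    refine (Finset.sum_le_sum this).trans (le_of_eq ?_)
    simp
    ring
  nlinarith

/-- the size of the increments -/
lemma incr_bd (hF : Fam u v a b β₁ β₂) {φ : ℝ → ℝ} {K : ℝ} (hK : 0 ≤ K) (hlip : ∀ s t, |φ s - φ t| ≤ K * |s - t|)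
    (hb : ∀ t, |φ t| ≤ 1) (hT : TrE T u a b B) {k i j : ℕ} (hi : i < T.N k) (hj : j ∈ T.ch k i) :
    |S φ u (nn B (k + 1)) (T.t (k + 1) j) - S φ u (nn B k) (T.t k i)| ≤ B k + C0 K β₁ := by
  obtain ⟨hjN, hsub⟩ := ch_sub hi hj
  have h1 : T.t (k + 1) j ∈ T.cell k i := hsub ⟨le_rfl, (T.lt (k + 1) j hjN).le⟩
  have h2 := osc hF hK hlip hT hi h1
  have h3 := S_diff hb u (nn B k) (B k) (T.t (k + 1) j)
  have e : S φ u (nn B (k + 1)) (T.t (k + 1) j) - S φ u (nn B k) (T.t k i) =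
      (S φ u (nn B k + B k) (T.t (k + 1) j) - S φ u (nn B k) (T.t (k + 1) j)) -
        (S φ u (nn B k) (T.t k i) - S φ u (nn B k) (T.t (k + 1) j)) := by
    simp only [Pool.Agent.GE.nn]
    ring
  rw [e]
  exact (abs_sub _ _).trans (add_le_add h3 h2)

lemma C0_nonneg (hF : Fam u v a b β₁ β₂) {K : ℝ} (hK : 0 ≤ K) : 0 ≤ C0 K β₁ := by
  unfold C0
  have : 0 < β₁ - 1 := by linarith [hF.hβ]
  positivity

/-- exponential moment of the increments -/
lemma step (hF : Fam u v a b β₁ β₂) {φ : ℝ → ℝ} {K : ℝ} (hK : 0 ≤ K) (hlip : ∀ s t, |φ s - φ t| ≤ K * |s - t|)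
    (hb : ∀ t, |φ t| ≤ 1) {J L : ℕ → ℕ} (hB : ∀ k, B k = J k + L k) (hT : TrE T u a b B) {st : ℕ → ℕ → Prop}
    {tf : ℕ → ℕ → ℝ → ℝ} (hc : ∀ k i, ContinuousOn (tf k i) (Icc a b))
    (hpos : ∀ k i, ∀ x ∈ Icc a b, 0 < tf k i x) {δ : ℕ → ℝ}
    (hmean : ∀ k i, i < T.N k → st k i → ∀ l < L k,
      |ic T k i (fun x => φ (u (nn B k + J k + l) x) * tf k i x)| ≤ δ k * ic T k i (tf k i)) {k i : ℕ} (hi : i < T.N k)
    {s : ℝ} (hs : 0 ≤ s) (hs1 : s * (B k + C0 K β₁) ≤ 1) :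
    ∑ j ∈ T.ch k i, em T tf (k + 1) j *
      Real.exp (s * Mh T st (fun k i => S φ u (nn B k) (T.t k i)) (k + 1) j) ≤
      em T tf k i * Real.exp (s * Mh T st (fun k i => S φ u (nn B k) (T.t k i)) k i) *
        Real.exp (s * (|δ k| * L k + J k + 2 * C0 K β₁) + s ^ 2 * (B k + C0 K β₁) ^ 2) := by
  classical
  set F : ℕ → ℕ → ℝ := fun k i => S φ u (nn B k) (T.t k i) with hFd
  have hC := C0_nonneg hF hK
  have hem := em_pos hT.mem hc hpos k i hi
  have hic := ic_pos hT.mem (hc k i) (hpos k i) hi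
  have h0 : 0 ≤ s * (|δ k| * L k + J k + 2 * C0 K β₁) + s ^ 2 * (B k + C0 K β₁) ^ 2 := by positivity
  have e1 : ∀ j ∈ T.ch k i, em T tf (k + 1) j * Real.exp (s * Mh T st F (k + 1) j) =
      Real.exp (s * Mh T st F k i) * (em T tf (k + 1) j * Real.exp (s * (if st k i then F (k + 1) j - F k i else 0))) := by
    intro j hj
    rw [Mh_succ hi hj, mul_add, Real.exp_add]
    ring
  rw [Finset.sum_congr rfl e1, ← Finset.mul_sum]
  rw [mul_comm (em T tf k i) (Real.exp _), mul_assoc]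
  refine mul_le_mul_of_nonneg_left ?_ (Real.exp_pos _).le
  by_cases hst : st k i
  · simp only [if_pos hst]
    have hX : ∀ j ∈ T.ch k i, |F (k + 1) j - F k i| ≤ B k + C0 K β₁ := fun j hj => incr_bd hF hK hlip hb hT hi hj
    have h1 : ∀ j ∈ T.ch k i, em T tf (k + 1) j * Real.exp (s * (F (k + 1) j - F k i)) ≤
        em T tf (k + 1) j + s * (em T tf (k + 1) j * (F (k + 1) j - F k i)) + s ^ 2 * (B k + C0 K β₁) ^ 2 * em T tf (k + 1) j := by
      intro j hj
      have h2 := (em_pos hT.mem hc hpos (k + 1) j (ch_sub hi hj).1).le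
      have h3 : |s * (F (k + 1) j - F k i)| ≤ 1 := by
        rw [abs_mul, abs_of_nonneg hs]
        exact (mul_le_mul_of_nonneg_left (hX j hj) hs).trans hs1
      have h4 := exp_le_quad h3
      have h5 : (F (k + 1) j - F k i) ^ 2 ≤ (B k + C0 K β₁) ^ 2 := by
        rw [← sq_abs (F (k + 1) j - F k i)]
        exact pow_le_pow_left₀ (abs_nonneg _) (hX j hj) 2
      have h6 : (s * (F (k + 1) j - F k i)) ^ 2 ≤ s ^ 2 * (B k + C0 K β₁) ^ 2 := by
        rw [mul_pow]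
        exact mul_le_mul_of_nonneg_left h5 (sq_nonneg s)
      calc em T tf (k + 1) j * Real.exp (s * (F (k + 1) j - F k i)) ≤
            em T tf (k + 1) j * (1 + s * (F (k + 1) j - F k i) + s ^ 2 * (B k + C0 K β₁) ^ 2) :=
              mul_le_mul_of_nonneg_left (by linarith) h2
        _ = _ := by ring
    refine (Finset.sum_le_sum h1).trans ?_
    rw [Finset.sum_add_distrib, Finset.sum_add_distrib, ← Finset.mul_sum, ← Finset.mul_sum, em_sum hT.mem hc hpos k i hi]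
    have h2 : ∑ j ∈ T.ch k i, em T tf (k + 1) j * (F (k + 1) j - F k i) ≤ em T tf k i * (|δ k| * L k + J k + 2 * C0 K β₁) := by
      have e2 : ∑ j ∈ T.ch k i, em T tf (k + 1) j * (F (k + 1) j - F k i) =
          em T tf k i / ic T k i (tf k i) * ∑ j ∈ T.ch k i, ic T (k + 1) j (tf k i) * (F (k + 1) j - F k i) := by
        rw [Finset.mul_sum]
        refine Finset.sum_congr rfl fun j hj => ?_
        rw [em_succ hi hj]
        ring
      rw [e2]
      have h3 := mean_incr hF hK hlip hb hB hT (hc k i) (hpos k i) hi (hmean k i hi hst)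
      calc em T tf k i / ic T k i (tf k i) * ∑ j ∈ T.ch k i, ic T (k + 1) j (tf k i) * (F (k + 1) j - F k i) ≤
            em T tf k i / ic T k i (tf k i) * ((|δ k| * L k + J k + 2 * C0 K β₁) * ic T k i (tf k i)) :=
              mul_le_mul_of_nonneg_left h3 (by positivity)
        _ = _ := by field_simp
    have h3 := mul_le_mul_of_nonneg_left h2 hs
    have h4 := Real.add_one_le_exp (s * (|δ k| * L k + J k + 2 * C0 K β₁) + s ^ 2 * (B k + C0 K β₁) ^ 2)
    have h5 := mul_le_mul_of_nonneg_left h4 hem.le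
    linarith
  · simp only [if_neg hst, mul_zero, Real.exp_zero, mul_one]
    rw [em_sum hT.mem hc hpos k i hi]
    exact le_mul_of_one_le_right hem.le (Real.one_le_exp h0)

/-- exponential moment of the sum -/
lemma mgf (hF : Fam u v a b β₁ β₂) {φ : ℝ → ℝ} {K : ℝ} (hK : 0 ≤ K) (hlip : ∀ s t, |φ s - φ t| ≤ K * |s - t|)
    (hb : ∀ t, |φ t| ≤ 1) {J L : ℕ → ℕ} (hB : ∀ k, B k = J k + L k) (hT : TrE T u a b B) {st : ℕ → ℕ → Prop}
    {tf : ℕ → ℕ → ℝ → ℝ} (hc : ∀ k i, ContinuousOn (tf k i) (Icc a b))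
    (hpos : ∀ k i, ∀ x ∈ Icc a b, 0 < tf k i x) {δ : ℕ → ℝ}
    (hmean : ∀ k i, i < T.N k → st k i → ∀ l < L k,
      |ic T k i (fun x => φ (u (nn B k + J k + l) x) * tf k i x)| ≤ δ k * ic T k i (tf k i))
    {s : ℝ} (hs : 0 ≤ s) (n : ℕ) (hs1 : ∀ k < n, s * (B k + C0 K β₁) ≤ 1) :
    ∑ i ∈ Finset.range (T.N n), em T tf n i * Real.exp (s * Mh T st (fun k i => S φ u (nn B k) (T.t k i)) n i) ≤
      Real.exp (∑ k ∈ Finset.range n, (s * (|δ k| * L k + J k + 2 * C0 K β₁) + s ^ 2 * (B k + C0 K β₁) ^ 2)) := by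
  induction n with
  | zero =>
    rw [T.hN]
    simp [Pool.Agent.GE.em, Mh]
  | succ n ih =>
    rw [← T.JN n, sum_level T n _ _ le_rfl, Finset.sum_range_succ, Real.exp_add]
    have h1 : ∀ i ∈ Finset.range (T.N n), ∑ j ∈ T.ch n i, em T tf (n + 1) j *
      Real.exp (s * Mh T st (fun k i => S φ u (nn B k) (T.t k i)) (n + 1) j) ≤
      em T tf n i * Real.exp (s * Mh T st (fun k i => S φ u (nn B k) (T.t k i)) n i) *
        Real.exp (s * (|δ n| * L n + J n + 2 * C0 K β₁) + s ^ 2 * (B n + C0 K β₁) ^ 2) := fun i hi =>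
      step hF hK hlip hb hB hT hc hpos hmean (Finset.mem_range.1 hi) hs (hs1 n (Nat.lt_succ_self n))
    refine (Finset.sum_le_sum h1).trans ?_
    rw [← Finset.sum_mul]
    exact mul_le_mul_of_nonneg_right (ih fun k hk => hs1 k (by omega)) (Real.exp_pos _).le

lemma le_nn (hB1 : ∀ k, 1 ≤ B k) (n : ℕ) : n ≤ Pool.Agent.GE.nn B n := by
  induction n with
  | zero => exact Nat.zero_le _
  | succ n ih =>
    simp only [Pool.Agent.GE.nn]
    have := hB1 n
    omega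

lemma nn_cast (B : ℕ → ℕ) (n : ℕ) : (Pool.Agent.GE.nn B n : ℝ) = ∑ k ∈ Finset.range n, (B k : ℝ) := by
  induction n with
  | zero => simp [Pool.Agent.GE.nn]
  | succ n ih =>
    simp only [Pool.Agent.GE.nn]
    rw [Finset.sum_range_succ, ← ih]
    push_cast
    ring

lemma nn_mono (B : ℕ → ℕ) : Monotone (Pool.Agent.GE.nn B) :=
  monotone_nat_of_le_succ fun n => by simp only [Pool.Agent.GE.nn]; omega

/-- the errors are small in the mean -/
lemma sum_small {J L : ℕ → ℕ} (hB : ∀ k, B k = J k + L k) (hB1 : ∀ k, 1 ≤ B k)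
    (hJ : Tendsto (fun k => (J k : ℝ) / B k) atTop (𝓝 0)) (hBi : Tendsto B atTop atTop) {δ : ℕ → ℝ}
    (hδ : Tendsto δ atTop (𝓝 0)) {C : ℝ} (hC : 0 ≤ C) {η : ℝ} (hη : 0 < η) :
    ∃ D : ℝ, ∀ n, ∑ k ∈ Finset.range n, (|δ k| * L k + J k + 2 * C) ≤ D + η * Pool.Agent.GE.nn B n := by
  have hBr : Tendsto (fun k => (B k : ℝ)) atTop atTop := tendsto_natCast_atTop_atTop.comp hBi
  have h1 : Tendsto (fun k => |δ k| + (J k : ℝ) / B k + 2 * C / B k) atTop (𝓝 0) := by
    have h2 : Tendsto (fun k => 2 * C / (B k : ℝ)) atTop (𝓝 0) := hBr.const_div_atTop (2 * C)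
    have h3 : Tendsto (fun k => |δ k|) atTop (𝓝 0) := by simpa using hδ.abs
    simpa using (h3.add hJ).add h2
  obtain ⟨k0, hk0⟩ := eventually_atTop.1 (h1.eventually (gt_mem_nhds hη))
  have hnn : ∀ k, 0 ≤ |δ k| * L k + J k + 2 * C := fun k => by positivity
  refine ⟨∑ k ∈ Finset.range k0, (|δ k| * L k + J k + 2 * C), fun n => ?_⟩
  have h4 : ∀ k, |δ k| * L k + J k + 2 * C ≤ (if k < k0 then |δ k| * L k + J k + 2 * C else 0) + η * B k := by
    intro k
    have hBk : (0 : ℝ) < B k := by exact_mod_cast hB1 k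
    split_ifs with h
    · have : 0 ≤ η * B k := by positivity
      linarith
    · have h5 := hk0 k (by omega)
      have h6 : (L k : ℝ) ≤ B k := by
        have := hB k
        exact_mod_cast (by omega : L k ≤ B k)
      have h7 : |δ k| * L k ≤ |δ k| * B k := mul_le_mul_of_nonneg_left h6 (abs_nonneg _)
      have h8 : (|δ k| + (J k : ℝ) / B k + 2 * C / B k) * B k = |δ k| * B k + J k + 2 * C := by
        field_simp
      have h9 := mul_le_mul_of_nonneg_right h5.le hBk.le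
      rw [h8] at h9
      linarith
  refine (Finset.sum_le_sum fun k _ => h4 k).trans ?_
  rw [Finset.sum_add_distrib, ← Finset.mul_sum, ← nn_cast]
  refine add_le_add ?_ le_rfl
  rw [← Finset.sum_filter]
  refine Finset.sum_le_sum_of_subset_of_nonneg (fun k hk => ?_) fun k _ _ => hnn k
  rw [Finset.mem_filter] at hk
  exact Finset.mem_range.2 hk.2

lemma exp_neg_le {y : ℝ} (hy : 0 < y) : Real.exp (-y) ≤ 24 / y ^ 4 := by
  have h := Real.pow_div_factorial_le_exp y hy.le 4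
  have h1 : ((Nat.factorial 4 : ℕ) : ℝ) = 24 := by norm_num [Nat.factorial]
  rw [h1] at h
  rw [Real.exp_neg, inv_le_comm₀ (Real.exp_pos _) (by positivity), inv_div]
  exact h

/-- large deviations, summable -/
lemma dev (hF : Fam u v a b β₁ β₂) {φ : ℝ → ℝ} {K : ℝ} (hK : 0 ≤ K) (hlip : ∀ s t, |φ s - φ t| ≤ K * |s - t|)
    (hb : ∀ t, |φ t| ≤ 1) {J L : ℕ → ℕ} (hB : ∀ k, B k = J k + L k)
    (hB1 : ∀ k, 1 ≤ B k) (hB4 : ∀ k, B k ^ 4 ≤ k + 1) (hBm : Monotone B) (hJ : Tendsto (fun k => (J k : ℝ) / B k) atTop (𝓝 0))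
    (hBi : Tendsto B atTop atTop)
    (hT : TrE T u a b B) {st : ℕ → ℕ → Prop} {tf : ℕ → ℕ → ℝ → ℝ} (hc : ∀ k i, ContinuousOn (tf k i) (Icc a b))
    (hpos : ∀ k i, ∀ x ∈ Icc a b, 0 < tf k i x) {δ : ℕ → ℝ} (hδ : Tendsto δ atTop (𝓝 0))
    (hmean : ∀ k i, i < T.N k → st k i → ∀ l < L k,
      |ic T k i (fun x => φ (u (Pool.Agent.GE.nn B k + J k + l) x) * tf k i x)| ≤ δ k * ic T k i (tf k i))
    {ε : ℝ} (hε : 0 < ε) (hε8 : ε ≤ 8) :
    ∀ᵐ w ∂(volume.restrict (Ico (0 : ℝ) 1)), ∀ᶠ n in atTop,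
      Mh T st (fun k i => S φ u (Pool.Agent.GE.nn B k) (T.t k i)) n (idx T (em T tf) n w) < ε * Pool.Agent.GE.nn B n := by
  classical
  set C := C0 K β₁ with hCd
  have hC : 0 ≤ C := C0_nonneg hF hK
  set F : ℕ → ℕ → ℝ := fun k i => S φ u (Pool.Agent.GE.nn B k) (T.t k i) with hFd
  have hm0 : em T tf 0 0 = 1 := by simp [Pool.Agent.GE.em]
  have hsum := em_sum (T := T) (tf := tf) hT.mem hc hpos
  have hemp := em_pos (T := T) (tf := tf) hT.mem hc hpos
  obtain ⟨D, hD⟩ := sum_small hB hB1 hJ hBi hδ hC (show 0 < ε / 8 by positivity)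
  obtain ⟨n0, hn0⟩ := exists_nat_gt (D / (ε / 4))
  set c : ℝ := ε ^ 2 / (16 * (1 + C) ^ 2) with hc'
  have hc0 : 0 < c := by positivity
  -- the bound for one level
  have key : ∀ n, n0 ≤ n → 1 ≤ n → ∑ i ∈ (Finset.range (T.N n)).filter (fun i => ε * Pool.Agent.GE.nn B n ≤ Mh T st F n i), em T tf n i ≤
      96 / c ^ 4 * (1 / (n : ℝ) ^ 2) := by
    intro n hn hn1
    have hnn := le_nn (B := B) hB1 n
    have hnnR : (n : ℝ) ≤ Pool.Agent.GE.nn B n := by exact_mod_cast hnn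
    have hnR : (1 : ℝ) ≤ n := by exact_mod_cast hn1
    have hBn : (1 : ℝ) ≤ B n := by exact_mod_cast hB1 n
    have hq : 0 < B n + C := by linarith
    set s : ℝ := ε / 8 / (B n + C) ^ 2 with hs
    have hs0 : 0 < s := by positivity
    have hsq : s * (B n + C) ^ 2 = ε / 8 := by rw [hs]; field_simp
    have hBk : ∀ k < n, (B k : ℝ) ≤ B n := fun k hk => by exact_mod_cast hBm hk.le
    have hs1 : ∀ k < n, s * (B k + C) ≤ 1 := by
      intro k hk
      have h1 : s * (B k + C) ≤ s * (B n + C) := mul_le_mul_of_nonneg_left (by linarith [hBk k hk]) hs0.le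
      have h2 : s * (B n + C) ≤ s * (B n + C) ^ 2 := by
        apply mul_le_mul_of_nonneg_left _ hs0.le
        nlinarith
      linarith
    have h1 := mgf hF hK hlip hb hB hT hc hpos hmean hs0.le n hs1
    rw [← hFd, ← hCd] at h1
    have h2 : ∑ k ∈ Finset.range n, (s * (|δ k| * L k + J k + 2 * C) + s ^ 2 * (B k + C) ^ 2) ≤
        s * (D + ε / 8 * Pool.Agent.GE.nn B n) + s * (ε / 8 * Pool.Agent.GE.nn B n) := by
      rw [Finset.sum_add_distrib, ← Finset.mul_sum]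
      refine add_le_add (mul_le_mul_of_nonneg_left (hD n) hs0.le) ?_
      have h3 : ∀ k ∈ Finset.range n, s ^ 2 * (B k + C) ^ 2 ≤ s * (ε / 8) := by
        intro k hk
        have h4 : (B k + C) ^ 2 ≤ (B n + C) ^ 2 := by
          apply pow_le_pow_left₀ (by positivity)
          linarith [hBk k (Finset.mem_range.1 hk)]
        calc s ^ 2 * (B k + C) ^ 2 ≤ s ^ 2 * (B n + C) ^ 2 := mul_le_mul_of_nonneg_left h4 (by positivity)
          _ = s * (s * (B n + C) ^ 2) := by ring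
          _ = _ := by rw [hsq]
      refine (Finset.sum_le_sum h3).trans ?_
      rw [Finset.sum_const, Finset.card_range, nsmul_eq_mul]
      have h5 : (n : ℝ) * (s * (ε / 8)) ≤ Pool.Agent.GE.nn B n * (s * (ε / 8)) := mul_le_mul_of_nonneg_right hnnR (by positivity)
      linarith
    have h3 : D ≤ ε / 4 * Pool.Agent.GE.nn B n := by
      have h4 : (n0 : ℝ) ≤ n := by exact_mod_cast hn
      have h5 : D / (ε / 4) ≤ Pool.Agent.GE.nn B n := by linarith
      rw [div_le_iff₀ (by positivity)] at h5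
      linarith
    -- Markov
    have h4 : Real.exp (s * (ε * Pool.Agent.GE.nn B n)) *
        ∑ i ∈ (Finset.range (T.N n)).filter (fun i => ε * Pool.Agent.GE.nn B n ≤ Mh T st F n i), em T tf n i ≤
        ∑ i ∈ Finset.range (T.N n), em T tf n i * Real.exp (s * Mh T st F n i) := by
      rw [Finset.mul_sum]
      refine le_trans (Finset.sum_le_sum fun i hi => ?_) (Finset.sum_le_sum_of_subset_of_nonneg (Finset.filter_subset _ _)
        fun i hi _ => ?_)
      · rw [Finset.mem_filter, Finset.mem_range] at hi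
        have h5 := (hemp n i hi.1).le
        rw [mul_comm]
        exact mul_le_mul_of_nonneg_left (Real.exp_le_exp.2 (mul_le_mul_of_nonneg_left hi.2 hs0.le)) h5
      · exact mul_nonneg (hemp n i (Finset.mem_range.1 hi)).le (Real.exp_pos _).le
    have h5 : ∑ i ∈ (Finset.range (T.N n)).filter (fun i => ε * Pool.Agent.GE.nn B n ≤ Mh T st F n i), em T tf n i ≤
        Real.exp (-(s * (ε / 2 * Pool.Agent.GE.nn B n))) := by
      have h6 := h4.trans (h1.trans (Real.exp_le_exp.2 h2))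
      rw [mul_comm, ← le_div_iff₀ (Real.exp_pos _), ← Real.exp_sub] at h6
      refine h6.trans (Real.exp_le_exp.2 ?_)
      have h7 := mul_le_mul_of_nonneg_left h3 hs0.le
      linarith
    refine h5.trans ?_
    set y : ℝ := s * (ε / 2 * Pool.Agent.GE.nn B n) with hy
    have hnn0 : (0 : ℝ) < Pool.Agent.GE.nn B n := by linarith
    have hy0 : 0 < y := by positivity
    refine (exp_neg_le hy0).trans ?_
    -- lower bound for y
    have h6 : c * Pool.Agent.GE.nn B n / (B n : ℝ) ^ 2 ≤ y := by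
      have h7 : (B n + C) ^ 2 ≤ ((1 + C) * B n) ^ 2 := by
        apply pow_le_pow_left₀ hq.le
        nlinarith
      have h8 : y = ε ^ 2 / 16 * Pool.Agent.GE.nn B n / (B n + C) ^ 2 := by
        rw [hy, hs]
        field_simp
        ring
      rw [h8, hc']
      calc ε ^ 2 / (16 * (1 + C) ^ 2) * Pool.Agent.GE.nn B n / (B n : ℝ) ^ 2 =
            ε ^ 2 / 16 * Pool.Agent.GE.nn B n / ((1 + C) * B n) ^ 2 := by field_simp
        _ ≤ _ := div_le_div_of_nonneg_left (by positivity) (by positivity) h7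
    have h7 : c ^ 4 * (n : ℝ) ^ 2 / 4 ≤ y ^ 4 := by
      have h8 : (c * Pool.Agent.GE.nn B n / (B n : ℝ) ^ 2) ^ 4 ≤ y ^ 4 := pow_le_pow_left₀ (by positivity) h6 4
      refine le_trans ?_ h8
      have h9 : (B n : ℝ) ^ 4 ≤ n + 1 := by exact_mod_cast hB4 n
      have h10 : (B n : ℝ) ^ 4 ≤ 2 * n := by linarith
      have h11 : ((B n : ℝ) ^ 4) ^ 2 ≤ (2 * n) ^ 2 := pow_le_pow_left₀ (by positivity) h10 2
      have h12 : (n : ℝ) ^ 4 ≤ (Pool.Agent.GE.nn B n : ℝ) ^ 4 := pow_le_pow_left₀ (by positivity) hnnR 4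
      calc c ^ 4 * (n : ℝ) ^ 2 / 4 = c ^ 4 * (n : ℝ) ^ 4 / (2 * n) ^ 2 := by field_simp; ring
        _ ≤ c ^ 4 * (Pool.Agent.GE.nn B n : ℝ) ^ 4 / (2 * n) ^ 2 := by
            exact div_le_div_of_nonneg_right (mul_le_mul_of_nonneg_left h12 (by positivity)) (by positivity)
        _ ≤ c ^ 4 * (Pool.Agent.GE.nn B n : ℝ) ^ 4 / ((B n : ℝ) ^ 4) ^ 2 :=
            div_le_div_of_nonneg_left (by positivity) (by positivity) h11
        _ = _ := by
            have e : ((B n : ℝ) ^ 4) ^ 2 = ((B n : ℝ) ^ 2) ^ 4 := by ring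
            rw [div_pow (c * (Pool.Agent.GE.nn B n : ℝ)) ((B n : ℝ) ^ 2) 4, mul_pow c _ 4, e]
    calc 24 / y ^ 4 ≤ 24 / (c ^ 4 * (n : ℝ) ^ 2 / 4) := div_le_div_of_nonneg_left (by norm_num) (by positivity) h7
      _ = _ := by field_simp; norm_num
  -- Borel-Cantelli
  set A : ℕ → Set ℝ := fun n => {w | n0 ≤ n ∧ 1 ≤ n ∧ w ∈ Ico (0 : ℝ) 1 ∧
    ε * Pool.Agent.GE.nn B n ≤ Mh T st F n (idx T (em T tf) n w)} with hA
  have hAv : ∀ n, volume.restrict (Ico (0 : ℝ) 1) (A n) ≤ ENNReal.ofReal (96 / c ^ 4 * (1 / (n : ℝ) ^ 2)) := by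
    intro n
    refine (Measure.restrict_apply_le _ _).trans ?_
    by_cases hn : n0 ≤ n ∧ 1 ≤ n
    · have h1 : A n ⊆ ⋃ i ∈ (Finset.range (T.N n)).filter (fun i => ε * Pool.Agent.GE.nn B n ≤ Mh T st F n i),
          {w : ℝ | w ∈ Ico (0 : ℝ) 1 ∧ idx T (em T tf) n w = i} := by
        rintro w ⟨-, -, hw, hw2⟩
        simp only [Set.mem_iUnion]
        exact ⟨idx T (em T tf) n w, Finset.mem_filter.2 ⟨Finset.mem_range.2 (idx_lt n w), hw2⟩, hw, rfl⟩
      refine (measure_mono h1).trans ((measure_biUnion_finset_le _ _).trans ?_)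
      refine (Finset.sum_le_sum fun i _ => vol_idx hm0 hsum n i).trans ?_
      rw [← ENNReal.ofReal_sum_of_nonneg fun i hi => (hemp n i (Finset.mem_range.1 (Finset.mem_filter.1 hi).1)).le]
      exact ENNReal.ofReal_le_ofReal (key n hn.1 hn.2)
    · have h1 : A n = ∅ := by
        ext w
        simp only [hA, Set.mem_ofPred_eq, Set.mem_empty_iff_false, iff_false]
        rintro ⟨h2, h3, -⟩
        exact hn ⟨h2, h3⟩
      rw [h1, measure_empty]
      exact zero_le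
  have hfin : ∑' n, volume.restrict (Ico (0 : ℝ) 1) (A n) ≠ ⊤ := by
    have h1 : Summable (fun n : ℕ => 96 / c ^ 4 * (1 / (n : ℝ) ^ 2)) :=
      (Real.summable_one_div_nat_pow.2 (by norm_num)).mul_left _
    exact ne_top_of_le_ne_top h1.tsum_ofReal_ne_top (ENNReal.tsum_le_tsum hAv)
  have h1 := ae_eventually_notMem hfin
  filter_upwards [h1, ae_restrict_mem measurableSet_Ico] with w hw hw1
  filter_upwards [hw, eventually_ge_atTop n0, eventually_ge_atTop 1] with n h2 h3 h4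
  by_contra h5
  exact h2 ⟨h3, h4, hw1, not_lt.1 h5⟩

lemma exists_block (hB1 : ∀ k, 1 ≤ B k) (n : ℕ) : ∃ k, Pool.Agent.GE.nn B k ≤ n ∧ n < Pool.Agent.GE.nn B (k + 1) := by
  induction n with
  | zero =>
    refine ⟨0, le_rfl, ?_⟩
    simp only [Pool.Agent.GE.nn]
    have := hB1 0
    omega
  | succ n ih =>
    obtain ⟨k, h1, h2⟩ := ih
    rcases Nat.lt_or_ge (n + 1) (Pool.Agent.GE.nn B (k + 1)) with h | h
    · exact ⟨k, by omega, h⟩
    · refine ⟨k + 1, h, ?_⟩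
      simp only [Pool.Agent.GE.nn] at h2 h ⊢
      have := hB1 (k + 1)
      omega

/-- one side of the law of large numbers -/
lemma one_side (hF : Fam u v a b β₁ β₂) {φ : ℝ → ℝ} {K : ℝ} (hK : 0 ≤ K) (hlip : ∀ s t, |φ s - φ t| ≤ K * |s - t|)
    (hb : ∀ t, |φ t| ≤ 1) {J L : ℕ → ℕ} (hB : ∀ k, B k = J k + L k)
    (hB1 : ∀ k, 1 ≤ B k) (hB4 : ∀ k, B k ^ 4 ≤ k + 1) (hBm : Monotone B) (hJ : Tendsto (fun k => (J k : ℝ) / B k) atTop (𝓝 0))
    (hBi : Tendsto B atTop atTop)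
    (hT : TrE T u a b B) {st : ℕ → ℕ → Prop} {tf : ℕ → ℕ → ℝ → ℝ} (hc : ∀ k i, ContinuousOn (tf k i) (Icc a b))
    (hpos : ∀ k i, ∀ x ∈ Icc a b, 0 < tf k i x) {δ : ℕ → ℝ} (hδ : Tendsto δ atTop (𝓝 0))
    (hmean : ∀ k i, i < T.N k → st k i → ∀ l < L k,
      |ic T k i (fun x => φ (u (Pool.Agent.GE.nn B k + J k + l) x) * tf k i x)| ≤ δ k * ic T k i (tf k i))
    {ε : ℝ} (hε : 0 < ε) (hε8 : ε ≤ 8) :
    ∀ᵐ w ∂(volume.restrict (Ico (0 : ℝ) 1)), (∀ᶠ k in atTop, st k (idx T (em T tf) k w)) →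
      ∀ᶠ n : ℕ in atTop, S φ u n (pt T (em T tf) w) ≤ 3 * ε * n := by
  have hm0 : em T tf 0 0 = 1 := by simp [Pool.Agent.GE.em]
  have hsum := em_sum (T := T) (tf := tf) hT.mem hc hpos
  have hemp := em_pos (T := T) (tf := tf) hT.mem hc hpos
  have hem0 : ∀ k i, i < T.N k → 0 ≤ em T tf k i := fun k i hi => (hemp k i hi).le
  filter_upwards [dev hF hK hlip hb hB hB1 hB4 hBm hJ hBi hT hc hpos hδ hmean hε hε8, ae_restrict_mem measurableSet_Ico]
    with w hw hw01 hst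
  set F : ℕ → ℕ → ℝ := fun k i => S φ u (Pool.Agent.GE.nn B k) (T.t k i) with hFd
  set I : ℕ → ℕ := fun k => idx T (em T tf) k w with hI
  have hIch : ∀ k, I (k + 1) ∈ T.ch k (I k) := fun k => by
    unfold Tr.ch
    rw [Finset.mem_Ico]
    exact idx_child hm0 hem0 hsum k hw01.1 hw01.2
  have hIlt : ∀ k, I k < T.N k := fun k => idx_lt k w
  obtain ⟨k1, hk1⟩ := eventually_atTop.1 hst
  -- telescoping
  have htel : ∀ k, k1 ≤ k → Mh T st F k (I k) = Mh T st F k1 (I k1) + (F k (I k) - F k1 (I k1)) := by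
    intro k hk
    induction k, hk using Nat.le_induction with
    | base => ring
    | succ k hk ih =>
      rw [Mh_succ (hIlt k) (hIch k), ih, if_pos (hk1 k hk)]
      ring
  have hx := fun k => pt_mem hm0 hem0 hsum k hw01.1 hw01.2
  -- the bound at the block boundaries
  set D : ℝ := |F k1 (I k1) - Mh T st F k1 (I k1)| + C0 K β₁ with hD
  have hblock : ∀ᶠ k in atTop, S φ u (Pool.Agent.GE.nn B k) (pt T (em T tf) w) ≤ ε * Pool.Agent.GE.nn B k + D := by
    filter_upwards [hw, eventually_ge_atTop k1] with k h1 h2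
    have h3 := osc hF hK hlip hT (hIlt k) (hx k)
    have h4 := htel k h2
    have h5 := (abs_le.1 h3).1
    have h6 := le_abs_self (F k1 (I k1) - Mh T st F k1 (I k1))
    have h7 : Mh T st F k (I k) < ε * Pool.Agent.GE.nn B k := h1
    have h8 : -(C0 K β₁) ≤ F k (I k) - S φ u (Pool.Agent.GE.nn B k) (pt T (em T tf) w) := h5
    linarith
  have hDk : ∀ᶠ k : ℕ in atTop, D ≤ ε * k := by
    obtain ⟨m, hm⟩ := exists_nat_gt (D / ε)
    filter_upwards [eventually_ge_atTop m] with k hk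
    have h1 : (m : ℝ) ≤ k := by exact_mod_cast hk
    have h2 : D / ε ≤ k := by linarith
    rw [div_le_iff₀ hε] at h2
    linarith
  have hBk : ∀ᶠ k : ℕ in atTop, (B k : ℝ) ≤ ε * k := by
    obtain ⟨m, hm⟩ := exists_nat_gt (2 / ε)
    filter_upwards [hBi.eventually_ge_atTop (m + 1), eventually_ge_atTop 1] with k hk hk1
    have h1 : (m : ℝ) + 1 ≤ B k := by exact_mod_cast hk
    have h2 : (B k : ℝ) ^ 4 ≤ k + 1 := by exact_mod_cast hB4 k
    have h3 : (1 : ℝ) ≤ B k := by exact_mod_cast hB1 k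
    have h4 : (1 : ℝ) ≤ k := by exact_mod_cast hk1
    have h5 : 2 / ε ≤ B k := by linarith
    rw [div_le_iff₀ hε] at h5
    have h6 : (B k : ℝ) ^ 2 ≤ (B k : ℝ) ^ 4 := pow_le_pow_right₀ h3 (by norm_num)
    have h7 : (B k : ℝ) * 2 ≤ ε * (2 * k) := by
      calc (B k : ℝ) * 2 ≤ B k * (B k * ε) := mul_le_mul_of_nonneg_left h5 (by positivity)
        _ = ε * (B k : ℝ) ^ 2 := by ring
        _ ≤ ε * (2 * k) := mul_le_mul_of_nonneg_left (by linarith) hε.le
    linarith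
  obtain ⟨k2, hk2⟩ := eventually_atTop.1 (hblock.and (hDk.and hBk))
  filter_upwards [eventually_ge_atTop (Pool.Agent.GE.nn B k2)] with n hn
  obtain ⟨k, h1, h2⟩ := exists_block hB1 n
  have h3 : k2 ≤ k := by
    by_contra hcon
    have h4 := nn_mono B (show k + 1 ≤ k2 by omega)
    omega
  obtain ⟨h4, h5, h6⟩ := hk2 k h3
  have h7 := S_diff hb u (Pool.Agent.GE.nn B k) (n - Pool.Agent.GE.nn B k) (pt T (em T tf) w)
  rw [Nat.add_sub_cancel' h1] at h7
  have h8 : ((n - Pool.Agent.GE.nn B k : ℕ) : ℝ) ≤ B k := by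
    simp only [Pool.Agent.GE.nn] at h2
    exact_mod_cast (by omega : n - Pool.Agent.GE.nn B k ≤ B k)
  have h9 := (abs_le.1 h7).2
  have h10 : (Pool.Agent.GE.nn B k : ℝ) ≤ n := by exact_mod_cast h1
  have h11 : (k : ℝ) ≤ n := by exact_mod_cast (le_nn hB1 k).trans h1
  have h12 := mul_le_mul_of_nonneg_left h10 hε.le
  have h13 := mul_le_mul_of_nonneg_left h11 hε.le
  linarith

end Pool.Agent.Helper24.GE

namespace Pool.Agent.GE

open Pool.Agent.Helper24.GE in
/-- E8: law of large numbers -/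
theorem lln {T : Tr} {u v : ℕ → ℝ → ℝ} {a b β₁ β₂ : ℝ} (hF : Fam u v a b β₁ β₂) {φ : ℝ → ℝ} {K : ℝ} (hK : 0 ≤ K)
    (hlip : ∀ s t, |φ s - φ t| ≤ K * |s - t|) (hb : ∀ t, |φ t| ≤ 1) {J L B : ℕ → ℕ} (hB : ∀ k, B k = J k + L k)
    (hB1 : ∀ k, 1 ≤ B k) (hB4 : ∀ k, B k ^ 4 ≤ k + 1) (hBm : Monotone B) (hJ : Tendsto (fun k => (J k : ℝ) / B k) atTop (𝓝 0))
    (hBi : Tendsto B atTop atTop)
    (hT : TrE T u a b B) {st : ℕ → ℕ → Prop} {tf : ℕ → ℕ → ℝ → ℝ} (hc : ∀ k i, ContinuousOn (tf k i) (Icc a b))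
    (hpos : ∀ k i, ∀ x ∈ Icc a b, 0 < tf k i x) {δ : ℕ → ℝ} (hδ : Tendsto δ atTop (𝓝 0))
    (hmean : ∀ k i, i < T.N k → st k i → ∀ l < L k,
      |ic T k i (fun x => φ (u (nn B k + J k + l) x) * tf k i x)| ≤ δ k * ic T k i (tf k i)) :
    ∀ᵐ w ∂(volume.restrict (Ico (0 : ℝ) 1)), (∀ᶠ k in atTop, st k (idx T (em T tf) k w)) →
      Tendsto (fun N : ℕ => S φ u N (pt T (em T tf) w) / N) atTop (𝓝 0) := by
  -- the function `-φ`
  have hlip' : ∀ s t, |(-φ s) - (-φ t)| ≤ K * |s - t| := fun s t => by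
    rw [show (-φ s) - (-φ t) = -(φ s - φ t) by ring, abs_neg]
    exact hlip s t
  have hb' : ∀ t, |-φ t| ≤ 1 := fun t => by rw [abs_neg]; exact hb t
  have hmean' : ∀ k i, i < T.N k → st k i → ∀ l < L k,
      |ic T k i (fun x => (fun t => -φ t) (u (nn B k + J k + l) x) * tf k i x)| ≤ δ k * ic T k i (tf k i) := by
    intro k i hi hs l hl
    have e : ic T k i (fun x => (fun t => -φ t) (u (nn B k + J k + l) x) * tf k i x) =
        -ic T k i (fun x => φ (u (nn B k + J k + l) x) * tf k i x) := by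
      unfold ic
      rw [← intervalIntegral.integral_neg]
      congr 1
      funext x
      ring
    rw [e, abs_neg]
    exact hmean k i hi hs l hl
  have h1 : ∀ᵐ w ∂(volume.restrict (Ico (0 : ℝ) 1)), ∀ m : ℕ, (∀ᶠ k in atTop, st k (idx T (em T tf) k w)) →
      ∀ᶠ n : ℕ in atTop, S φ u n (pt T (em T tf) w) ≤ 3 * (1 / ((m : ℝ) + 1)) * n := by
    rw [ae_all_iff]
    intro m
    refine one_side hF hK hlip hb hB hB1 hB4 hBm hJ hBi hT hc hpos hδ hmean (ε := 1 / ((m : ℝ) + 1)) (by positivity) ?_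
    rw [div_le_iff₀ (by positivity)]
    have : (0 : ℝ) ≤ m := Nat.cast_nonneg m
    linarith
  have h2 : ∀ᵐ w ∂(volume.restrict (Ico (0 : ℝ) 1)), ∀ m : ℕ, (∀ᶠ k in atTop, st k (idx T (em T tf) k w)) →
      ∀ᶠ n : ℕ in atTop, S (fun t => -φ t) u n (pt T (em T tf) w) ≤ 3 * (1 / ((m : ℝ) + 1)) * n := by
    rw [ae_all_iff]
    intro m
    refine one_side hF hK hlip' hb' hB hB1 hB4 hBm hJ hBi hT hc hpos hδ hmean' (ε := 1 / ((m : ℝ) + 1)) (by positivity) ?_
    rw [div_le_iff₀ (by positivity)]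
    have : (0 : ℝ) ≤ m := Nat.cast_nonneg m
    linarith
  filter_upwards [h1, h2] with w h1 h2 hst
  rw [Metric.tendsto_atTop]
  intro ε hε
  obtain ⟨m, hm⟩ := exists_nat_gt (4 / ε)
  have hm1 : 3 * (1 / ((m : ℝ) + 1)) < ε := by
    have hm0 : (0 : ℝ) < (m : ℝ) + 1 := by positivity
    rw [mul_one_div, div_lt_iff₀ hm0]
    rw [div_lt_iff₀ hε] at hm
    linarith
  obtain ⟨n0, hn0⟩ := eventually_atTop.1 ((h1 m hst).and ((h2 m hst).and (eventually_ge_atTop 1)))
  refine ⟨n0, fun n hn => ?_⟩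
  obtain ⟨h3, h4, h5⟩ := hn0 n hn
  have hn' : (0 : ℝ) < n := by exact_mod_cast h5
  have e : S (fun t => -φ t) u n (pt T (em T tf) w) = -S φ u n (pt T (em T tf) w) := by
    unfold S
    rw [Finset.sum_neg_distrib]
  rw [e] at h4
  rw [Real.dist_eq, sub_zero, abs_div, abs_of_pos hn', div_lt_iff₀ hn']
  have h6 : |S φ u n (pt T (em T tf) w)| ≤ 3 * (1 / ((m : ℝ) + 1)) * n := abs_le.2 ⟨by linarith, h3⟩
  exact h6.trans_lt (mul_lt_mul_of_pos_right hm1 hn')

end Pool.Agent.GE
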